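import Pool.Agent.D0H73.MK.Stm

set_option autoImplicit false

open Set Topology Filter Cardinal Ordinal

namespace Pool.Agent.D0H16.MK

open Pool.Agent.D0H73.MK

universe u

/-! ## Ordinals -/

theorem log_succ {γ : Ordinal.{u}} (h : γ ≠ 0) : Ordinal.log ω (γ + 1) = Ordinal.log ω γ := by
  rw [Ordinal.log_eq_iff one_lt_omega0 (by simp)]
  refine ⟨(Ordinal.opow_log_le_self ω h).trans le_self_add, ?_⟩
  have h1 : γ < ω ^ (Ordinal.log ω γ + 1) := by
    have := Ordinal.lt_opow_succ_log_self one_lt_omega0 γ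
    exact this
  have h2 : Order.IsSuccLimit (ω ^ (Ordinal.log ω γ + 1) : Ordinal.{u}) :=
    isSuccLimit_opow_left Ordinal.isSuccLimit_omega0 (by simp)
  exact h2.add_one_lt h1

theorem sub_succ {γ : Ordinal.{u}} (h : γ ≠ 0) :
    γ + 1 - ω ^ Ordinal.log ω γ = (γ - ω ^ Ordinal.log ω γ) + 1 := by
  have h1 := Ordinal.add_sub_cancel_of_le (Ordinal.opow_log_le_self ω h)
  have h2 : γ + 1 = ω ^ Ordinal.log ω γ + ((γ - ω ^ Ordinal.log ω γ) + 1) := by
    rw [← add_assoc, h1]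
  calc γ + 1 - ω ^ Ordinal.log ω γ
      = (ω ^ Ordinal.log ω γ + ((γ - ω ^ Ordinal.log ω γ) + 1)) - ω ^ Ordinal.log ω γ := by
        rw [← h2]
    _ = _ := Ordinal.add_sub_cancel _ _

theorem mu_le (α : Ordinal.{u}) : (max α.card ℵ₀).ord ≤ ω ^ (α + 1) := by
  have hω : ω ≤ ω ^ (α + 1) := by
    calc ω = ω ^ (1 : Ordinal.{u}) := (Ordinal.opow_one ω).symm
      _ ≤ ω ^ (α + 1) := Ordinal.opow_le_opow_right omega0_pos (by simp)
  rcases le_total α.card ℵ₀ with h | h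
  · rw [max_eq_right h, Cardinal.ord_aleph0]
    exact hω
  · rw [max_eq_left h]
    calc α.card.ord ≤ α := Cardinal.ord_card_le α
      _ ≤ α + 1 := le_self_add
      _ ≤ ω ^ (α + 1) := Ordinal.right_le_opow _ one_lt_omega0

/-- Decomposition in blocks: `γ = ω ^ α + β`. -/
theorem block {α β : Ordinal.{u}} (hβ : β < (max α.card ℵ₀).ord) :
    Ordinal.log ω (ω ^ α + β) = α ∧ ω ^ α + β - ω ^ α = β ∧ ω ^ α + β ≠ 0 ∧
      ω ^ α + β < ω ^ (α + 1) := by
  have h1 : ω ^ α + β < ω ^ (α + 1) := by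
    apply Ordinal.isPrincipal_add_omega0_opow (α + 1)
    · exact (Ordinal.opow_lt_opow_iff_right one_lt_omega0).2 (by simp)
    · exact hβ.trans_le (mu_le α)
  have h0 : ω ^ α + β ≠ 0 := by
    have : 0 < ω ^ α + β := (Ordinal.opow_pos α omega0_pos).trans_le le_self_add
    exact this.ne'
  refine ⟨?_, Ordinal.add_sub_cancel _ _, h0, h1⟩
  rw [Ordinal.log_eq_iff one_lt_omega0 h0]
  exact ⟨le_self_add, h1⟩

/-! ## Operators -/

section

variable {𝕜 : Type} [RCLike 𝕜] {X : Type u} [NormedAddCommGroup X] [NormedSpace 𝕜 X]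
variable {κ μ : Cardinal.{u}} {R A : Ordinal.{u} → X →L[𝕜] X} {α : Ordinal.{u}}

theorem e1 (hA : IsSPRI μ (R (α + 1) - R α) A) {β : Ordinal.{u}} (hβ : β ≤ μ.ord) (x : X) :
    R (α + 1) (A β x) - R α (A β x) = A β x := by
  have h := (hA.comp β μ.ord hβ le_rfl x).1
  rw [hA.top] at h
  exact h

theorem e2 (hA : IsSPRI μ (R (α + 1) - R α) A) {β : Ordinal.{u}} (hβ : β ≤ μ.ord) (x : X) :
    A β (R (α + 1) x - R α x) = A β x := by
  have h := (hA.comp β μ.ord hβ le_rfl x).2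
  rw [hA.top] at h
  exact h

theorem RE_zero (hR : IsPRI κ R) (hα : α + 1 ≤ κ.ord) (hA : IsSPRI μ (R (α + 1) - R α) A)
    {β : Ordinal.{u}} (hβ : β ≤ μ.ord) {δ : Ordinal.{u}} (hδ : δ ≤ α) (x : X) :
    R δ (A β x) = 0 := by
  rw [← e1 hA hβ x, map_sub, (hR.comp δ (α + 1) (hδ.trans le_self_add) hα _).2,
    (hR.comp δ α hδ (le_self_add.trans hα) _).2, _root_.sub_self]

theorem ER_zero (hR : IsPRI κ R) (hα : α + 1 ≤ κ.ord) (hA : IsSPRI μ (R (α + 1) - R α) A)
    {β : Ordinal.{u}} (hβ : β ≤ μ.ord) {δ : Ordinal.{u}} (hδ : δ ≤ α) (x : X) :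
    A β (R δ x) = 0 := by
  rw [← e2 hA hβ (R δ x), (hR.comp δ (α + 1) (hδ.trans le_self_add) hα _).1,
    (hR.comp δ α hδ (le_self_add.trans hα) _).1, _root_.sub_self, map_zero]

theorem RE_self (hR : IsPRI κ R) (hA : IsSPRI μ (R (α + 1) - R α) A)
    {β : Ordinal.{u}} (hβ : β ≤ μ.ord) {δ : Ordinal.{u}} (hδ : α + 1 ≤ δ) (hδ' : δ ≤ κ.ord)
    (x : X) : R δ (A β x) = A β x := by
  conv_lhs => rw [← e1 hA hβ x]
  rw [map_sub, (hR.comp (α + 1) δ hδ hδ' _).1, (hR.comp α δ (le_self_add.trans hδ) hδ' _).1,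
    e1 hA hβ x]

theorem ER_self (hR : IsPRI κ R) (hA : IsSPRI μ (R (α + 1) - R α) A)
    {β : Ordinal.{u}} (hβ : β ≤ μ.ord) {δ : Ordinal.{u}} (hδ : α + 1 ≤ δ) (hδ' : δ ≤ κ.ord)
    (x : X) : A β (R δ x) = A β x := by
  rw [← e2 hA hβ (R δ x), (hR.comp (α + 1) δ hδ hδ' _).2,
    (hR.comp α δ (le_self_add.trans hδ) hδ' _).2, e2 hA hβ x]

end

/-- CONCAT -/
theorem t_CONCAT : S_CONCAT.{u} := by
  intro 𝕜 _ X _ _ κ hκ R hR hex
  have hex' : ∀ α : Ordinal.{u}, ∃ Q : Ordinal.{u} → X →L[𝕜] X, α < κ.ord →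
      IsSPRI (max α.card ℵ₀) (R (α + 1) - R α) Q := by
    intro α
    by_cases h : α < κ.ord
    · obtain ⟨Q, hQ⟩ := hex α h
      exact ⟨Q, fun _ => hQ⟩
    · exact ⟨fun _ => 0, fun h' => absurd h' h⟩
  choose A hA using hex'
  have hlim : Order.IsSuccLimit κ.ord := Cardinal.isSuccLimit_ord hκ.le
  have hsucc : ∀ α < κ.ord, α + 1 < κ.ord := fun α h => hlim.add_one_lt h
  have hωκ : ω < κ.ord := by
    rw [← Cardinal.ord_aleph0]
    exact Cardinal.ord_lt_ord.2 hκ
  have hpow : ∀ α < κ.ord, ω ^ α < κ.ord := fun α h =>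
    Ordinal.isPrincipal_opow_ord hκ.le hωκ h
  have hlog : ∀ γ < κ.ord, Ordinal.log ω γ < κ.ord := fun γ h =>
    (Ordinal.log_le_self ω γ).trans_lt h
  let μ : Ordinal.{u} → Ordinal.{u} := fun α => (max α.card ℵ₀).ord
  let Q : Ordinal.{u} → X →L[𝕜] X := fun γ =>
    open Classical in if γ < κ.ord then R (Ordinal.log ω γ) +
      A (Ordinal.log ω γ) (min (γ - ω ^ Ordinal.log ω γ) (μ (Ordinal.log ω γ)))
    else ContinuousLinearMap.id 𝕜 X
  have hQ : ∀ γ < κ.ord, Q γ = R (Ordinal.log ω γ) +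
      A (Ordinal.log ω γ) (min (γ - ω ^ Ordinal.log ω γ) (μ (Ordinal.log ω γ))) :=
    fun γ h => if_pos h
  have hQtop : Q κ.ord = ContinuousLinearMap.id 𝕜 X := if_neg (lt_irrefl _)
  have hzero : Q 0 = 0 := by
    have h0 : (0 : Ordinal.{u}) < κ.ord := hlim.bot_lt
    rw [hQ 0 h0, Ordinal.log_zero_right, hR.zero, zero_add, Ordinal.zero_sub, zero_min,
      (hA 0 h0).zero]
  have hone : Q (0 + 1) = 0 := by
    have h0 : (0 : Ordinal.{u}) < κ.ord := hlim.bot_lt
    have h1 : (0 + 1 : Ordinal.{u}) < κ.ord := hsucc 0 h0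
    rw [hQ _ h1, zero_add, Ordinal.log_one_right, hR.zero, zero_add, Ordinal.opow_zero,
      Ordinal.sub_self, zero_min, (hA 0 h0).zero]
  -- increments
  have hinc : ∀ γ < κ.ord, γ ≠ 0 → Q (γ + 1) - Q γ =
      A (Ordinal.log ω γ) (min ((γ - ω ^ Ordinal.log ω γ) + 1) (μ (Ordinal.log ω γ))) -
      A (Ordinal.log ω γ) (min (γ - ω ^ Ordinal.log ω γ) (μ (Ordinal.log ω γ))) := by
    intro γ hγ h0
    rw [hQ _ (hsucc γ hγ), hQ _ hγ, log_succ h0, sub_succ h0, add_sub_add_left_eq_sub]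
  have hμ : ∀ α, Order.IsSuccLimit (μ α) := fun α =>
    Cardinal.isSuccLimit_ord (le_max_right _ _)
  refine ⟨Q, hzero, hQtop, ?_, ?_, ?_⟩
  · -- separable increments
    intro γ hγ
    rcases eq_or_ne γ 0 with rfl | h0
    · rw [hzero, hone, _root_.sub_zero]
      refine (Set.countable_singleton (0 : X)).isSeparable.mono ?_
      rintro _ ⟨x, rfl⟩
      simp
    · rw [hinc γ hγ h0]
      rcases lt_or_ge (γ - ω ^ Ordinal.log ω γ) (μ (Ordinal.log ω γ)) with hlt | hge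
      · have h1 : (γ - ω ^ Ordinal.log ω γ) + 1 ≤ μ (Ordinal.log ω γ) :=
          ((hμ _).add_one_lt hlt).le
        rw [min_eq_left h1, min_eq_left hlt.le]
        exact (hA _ (hlog γ hγ)).sep _ hlt
      · rw [min_eq_right hge, min_eq_right (hge.trans le_self_add), _root_.sub_self]
        refine (Set.countable_singleton (0 : X)).isSeparable.mono ?_
        rintro _ ⟨x, rfl⟩
        simp
  · -- compositions
    intro δ γ hδγ hγ x
    rcases eq_or_lt_of_le hγ with rfl | hγ'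
    · rw [hQtop]
      exact ⟨rfl, rfl⟩
    have hδ' : δ < κ.ord := hδγ.trans_lt hγ'
    have hlogle : Ordinal.log ω δ ≤ Ordinal.log ω γ := Ordinal.log_mono_right ω hδγ
    rw [hQ γ hγ', hQ δ hδ']
    have hAγ := hA _ (hlog γ hγ')
    have hAδ := hA _ (hlog δ hδ')
    have hsγ := (hsucc _ (hlog γ hγ')).le
    have hsδ := (hsucc _ (hlog δ hδ')).le
    have hmγ : min (γ - ω ^ Ordinal.log ω γ) (μ (Ordinal.log ω γ)) ≤ μ (Ordinal.log ω γ) :=
      min_le_right _ _
    have hmδ : min (δ - ω ^ Ordinal.log ω δ) (μ (Ordinal.log ω δ)) ≤ μ (Ordinal.log ω δ) :=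
      min_le_right _ _
    rcases eq_or_lt_of_le hlogle with heq | hlt
    · -- same block
      rw [heq] at hmδ ⊢
      have hm : min (δ - ω ^ Ordinal.log ω γ) (μ (Ordinal.log ω γ)) ≤
          min (γ - ω ^ Ordinal.log ω γ) (μ (Ordinal.log ω γ)) :=
        min_le_min_right _ (Ordinal.sub_le.2 (hδγ.trans (Ordinal.le_add_sub _ _)))
      have hc := hAγ.comp _ _ hm hmγ x
      have hr := hR.comp _ _ le_rfl (hlog γ hγ').le x
      refine ⟨?_, ?_⟩
      · simp only [_root_.add_apply, map_add]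
        rw [hr.1, RE_zero hR hsγ hAγ hmδ le_rfl, ER_zero hR hsγ hAγ hmγ le_rfl, hc.1]
        abel
      · simp only [_root_.add_apply, map_add]
        rw [hr.1, RE_zero hR hsγ hAγ hmγ le_rfl, ER_zero hR hsγ hAγ hmδ le_rfl, hc.2]
        abel
    · -- different blocks
      have hle1 : Ordinal.log ω δ + 1 ≤ Ordinal.log ω γ := Order.add_one_le_of_lt hlt
      have hr := hR.comp _ _ hlogle (hlog γ hγ').le x
      refine ⟨?_, ?_⟩
      · simp only [_root_.add_apply, map_add]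
        rw [hr.1, RE_self hR hAδ hmδ hle1 (hlog γ hγ').le, ER_zero hR hsγ hAγ hmγ hlogle]
        have h4 : ∀ z, (A (Ordinal.log ω γ)
            (min (γ - ω ^ Ordinal.log ω γ) (μ (Ordinal.log ω γ))))
            ((A (Ordinal.log ω δ) (min (δ - ω ^ Ordinal.log ω δ) (μ (Ordinal.log ω δ)))) z) = 0 := by
          intro z
          rw [← RE_self hR hAδ hmδ hle1 (hlog γ hγ').le z]
          exact ER_zero hR hsγ hAγ hmγ le_rfl _
        rw [h4]
        abel
      · simp only [_root_.add_apply, map_add]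
        rw [hr.2, RE_zero hR hsγ hAγ hmγ hlogle, ER_self hR hAδ hmδ hle1 (hlog γ hγ').le]
        have h4 : ∀ z, (A (Ordinal.log ω δ)
            (min (δ - ω ^ Ordinal.log ω δ) (μ (Ordinal.log ω δ))))
            ((A (Ordinal.log ω γ) (min (γ - ω ^ Ordinal.log ω γ) (μ (Ordinal.log ω γ)))) z) = 0 := by
          intro z
          rw [← ER_self hR hAδ hmδ le_rfl hsδ, RE_zero hR hsγ hAγ hmγ hle1, map_zero]
        rw [h4]
        abel
  · -- density
    intro x
    let M : Submodule 𝕜 X :=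
      (Submodule.span 𝕜 {y | ∃ β < κ.ord, y = Q (β + 1) x - Q β x}).topologicalClosure
    have hMc : IsClosed (M : Set X) := Submodule.isClosed_topologicalClosure _
    have hM : ∀ γ < κ.ord, Q (γ + 1) x - Q γ x ∈ M := fun γ hγ =>
      Submodule.le_topologicalClosure _ (Submodule.subset_span ⟨γ, hγ, rfl⟩)
    have hD : ∀ α < κ.ord, R (α + 1) x - R α x ∈ M := by
      intro α hα
      have hd := (hA α hα).dense x
      have hsub : ((Submodule.span 𝕜 {y | ∃ β < (max α.card ℵ₀).ord,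
          y = A α (β + 1) x - A α β x} : Submodule 𝕜 X) : Set X) ⊆ M := by
        have : Submodule.span 𝕜 {y | ∃ β < (max α.card ℵ₀).ord,
          y = A α (β + 1) x - A α β x} ≤ M := by
          rw [Submodule.span_le]
          rintro _ ⟨β, hβ, rfl⟩
          obtain ⟨hl, hs, h0, hlt⟩ := block hβ
          have hγκ : ω ^ α + β < κ.ord := hlt.trans (hpow _ (hsucc α hα))
          have h1 := hM _ hγκ
          have h2 := congrArg (fun T : X →L[𝕜] X => T x) (hinc _ hγκ h0)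
          simp only [_root_.sub_apply] at h2
          rw [h2, hl, hs] at h1
          have h3 : β + 1 ≤ μ α := ((hμ α).add_one_lt hβ).le
          rw [min_eq_left h3, min_eq_left (show β ≤ μ α from hβ.le)] at h1
          exact h1
        exact this
      have := closure_minimal hsub hMc hd
      exact this
    have hsub : ((Submodule.span 𝕜 {y | ∃ β < κ.ord, y = R (β + 1) x - R β x} :
        Submodule 𝕜 X) : Set X) ⊆ M := by
      have : Submodule.span 𝕜 {y | ∃ β < κ.ord, y = R (β + 1) x - R β x} ≤ M := by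
        rw [Submodule.span_le]
        rintro _ ⟨β, hβ, rfl⟩
        exact hD β hβ
      exact this
    have h := closure_minimal hsub hMc (hR.dense x)
    exact h

end Pool.Agent.D0H16.MK
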