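import Pool.Agent.D0H73.MK.Stm

set_option autoImplicit false

open Set Topology Filter Cardinal Ordinal

namespace Pool.Agent.D0H16.MK

open Pool.Agent.D0H73.MK

universe u

section

variable {Γ : Type u} [PartialOrder Γ]

theorem exists_ub [Nonempty Γ] (h : ∀ s t : Γ, ∃ v, s ≤ v ∧ t ≤ v) (F : Finset Γ) :
    ∃ M, ∀ i ∈ F, i ≤ M := by
  have : IsDirectedOrder Γ := ⟨h⟩
  exact F.exists_le

theorem exists_fun [Nonempty Γ] (h : ∀ s t : Γ, ∃ v, s ≤ v ∧ t ≤ v) (s : Ordinal.{u} → Γ) :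
    ∃ g : Finset Ordinal.{u} → Γ, (∀ F, ∀ ξ ∈ F, s ξ ≤ g F) ∧ ∀ G F, G ⊆ F → g G ≤ g F := by
  classical
  have key : ∀ (F : Finset Ordinal.{u}) (ih : ∀ G, G ⊂ F → Γ), ∃ M : Γ, (∀ ξ ∈ F, s ξ ≤ M) ∧
      ∀ G (hG : G ⊂ F), ih G hG ≤ M := by
    intro F ih
    obtain ⟨M, hM⟩ := exists_ub h (F.image s ∪
      F.ssubsets.attach.image (fun G : {G // G ∈ F.ssubsets} =>
        ih G.1 (Finset.mem_ssubsets.1 G.2)))
    refine ⟨M, fun ξ hξ => hM _ (Finset.mem_union_left _ (Finset.mem_image_of_mem _ hξ)),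
      fun G hG => hM _ (Finset.mem_union_right _ ?_)⟩
    exact Finset.mem_image.2 ⟨⟨G, Finset.mem_ssubsets.2 hG⟩, Finset.mem_attach _ _, rfl⟩
  let g : Finset Ordinal.{u} → Γ := fun F =>
    Finset.strongInduction (p := fun _ => Γ) (fun F ih => Classical.choose (key F ih)) F
  have hg : ∀ F, g F = Classical.choose (key F (fun G _ => g G)) := by
    intro F
    exact Finset.strongInduction_eq _ _
  have h1 : ∀ F, ∀ ξ ∈ F, s ξ ≤ g F := by
    intro F
    rw [hg F]
    exact (Classical.choose_spec (key F (fun G _ => g G))).1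
  have h2 : ∀ G F, G ⊂ F → g G ≤ g F := by
    intro G F hGF
    rw [hg F]
    exact (Classical.choose_spec (key F (fun G _ => g G))).2 G hGF
  refine ⟨g, h1, fun G F hGF => ?_⟩
  rcases hGF.eq_or_ssubset with rfl | hlt
  · exact le_rfl
  · exact h2 G F hlt

end

/-- FG -/
theorem t_FG : S_FG.{u} := by
  intro Γ _ hne hdir s
  classical
  obtain ⟨g, h1, h2⟩ := exists_fun hdir s
  refine ⟨fun α => {x | ∃ F : Finset Ordinal.{u}, (∀ ξ ∈ F, ξ < α) ∧ g F = x}, ?_, ?_, ?_, ?_, ?_⟩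
  · intro α
    refine ⟨⟨g ∅, ∅, by simp, rfl⟩, ?_⟩
    rintro _ ⟨F, hF, rfl⟩ _ ⟨G, hG, rfl⟩
    refine ⟨g (F ∪ G), ⟨F ∪ G, ?_, rfl⟩, h2 _ _ Finset.subset_union_left,
      h2 _ _ Finset.subset_union_right⟩
    intro ξ hξ
    rcases Finset.mem_union.1 hξ with h | h
    · exact hF ξ h
    · exact hG ξ h
  · intro α β hαβ
    rintro _ ⟨F, hF, rfl⟩
    exact ⟨F, fun ξ hξ => (hF ξ hξ).trans_le hαβ, rfl⟩
  · intro ξ α hξ
    exact ⟨g {ξ}, ⟨{ξ}, by simpa using hξ, rfl⟩, h1 _ ξ (Finset.mem_singleton_self ξ)⟩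
  · intro lam hlam
    ext x
    simp only [mem_iUnion, mem_ofPred_eq, mem_Iio, exists_prop]
    constructor
    · rintro ⟨F, hF, rfl⟩
      refine ⟨F.sup Order.succ, ?_, F, ?_, rfl⟩
      · rw [Finset.sup_lt_iff hlam.bot_lt]
        intro ξ hξ
        exact hlam.succ_lt (hF ξ hξ)
      · intro ξ hξ
        exact (Order.lt_succ ξ).trans_le (Finset.le_sup (f := Order.succ) hξ)
    · rintro ⟨α, hα, F, hF, rfl⟩
      exact ⟨F, fun ξ hξ => (hF ξ hξ).trans hα, rfl⟩
  · intro α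
    have hsub : {x | ∃ F : Finset Ordinal.{u}, (∀ ξ ∈ F, ξ < α) ∧ g F = x} ⊆
        range (fun F : Finset α.ToType => g (F.map ⟨fun x =>
          ((Ordinal.ToType.mk.symm x : Iio α) : Ordinal.{u}),
          Subtype.val_injective.comp Ordinal.ToType.mk.symm.injective⟩)) := by
      rintro _ ⟨F, hF, rfl⟩
      refine ⟨F.attach.map ⟨fun ξ => Ordinal.ToType.mk ⟨ξ.1, hF ξ.1 ξ.2⟩, ?_⟩, ?_⟩
      · intro a b hab
        have := Ordinal.ToType.mk.injective hab
        exact Subtype.ext (Subtype.mk.inj this)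
      · change g _ = g F
        congr 1
        rw [Finset.map_map]
        have hs : ∀ (a : Ordinal.{u}) (ha : a ∈ F),
            ((Ordinal.ToType.mk.symm (Ordinal.ToType.mk (⟨a, hF a ha⟩ : Iio α)) : Iio α) :
              Ordinal.{u}) = a := by
          intro a ha
          rw [OrderIso.symm_apply_apply]
        ext ξ
        rw [Finset.mem_map]
        constructor
        · rintro ⟨⟨a, ha⟩, _, h⟩
          have h' : a = ξ := (hs a ha).symm.trans h
          exact h' ▸ ha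
        · intro hξ
          exact ⟨⟨ξ, hξ⟩, Finset.mem_attach _ _, hs ξ hξ⟩
    refine (Cardinal.mk_le_mk_of_subset hsub).trans (Cardinal.mk_range_le.trans ?_)
    rcases finite_or_infinite α.ToType with hfin | hinf
    · refine le_trans ?_ (le_max_right _ _)
      exact Cardinal.mk_le_aleph0
    · rw [Cardinal.mk_finset_of_infinite, Cardinal.mk_toType]
      exact le_max_left _ _

end Pool.Agent.D0H16.MK
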